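import Mathlib

/-!
# Choice of the windows

`x a : ZMod M ≃ Q` is a cyclic enumeration of the class `a`. `tri x a i` consists of the three
consecutive vertices of the class `a` with centre `x a i`; in particular
`tri x c ((x c).symm u)` is the closed neighbourhood of the vertex `u` in the class `c`.
-/

set_option autoImplicit false
set_option linter.unusedSectionVars false

namespace Pool.Agent.Helper18.TD

open Finset

section Cyclic

variable {M : ℕ} [NeZero M]

/-- a set which meets every triple of consecutive positions -/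
def Cov (F : Finset (ZMod M)) : Prop := ∀ w, w ∈ F ∨ w + 1 ∈ F ∨ w + 2 ∈ F

theorem sum_shift (F : Finset (ZMod M)) (k : ZMod M) :
    ∑ w : ZMod M, (if w + k ∈ F then 1 else 0) = F.card := by
  rw [Fintype.sum_equiv (Equiv.addRight k) (fun w => if w + k ∈ F then 1 else 0)
    (fun w => if w ∈ F then 1 else 0) fun w => rfl]
  simp

theorem sum_three (F : Finset (ZMod M)) :
    ∑ w : ZMod M, ((if w ∈ F then 1 else 0) + (if w + 1 ∈ F then 1 else 0) +
      (if w + 2 ∈ F then 1 else 0)) = 3 * F.card := by
  rw [sum_add_distrib, sum_add_distrib, sum_shift, sum_shift]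
  have := sum_shift F 0
  simp only [add_zero] at this
  rw [this]
  ring

theorem Cov.card {F : Finset (ZMod M)} (h : Cov F) : M ≤ 3 * F.card := by
  rw [← sum_three F]
  calc M = ∑ w : ZMod M, 1 := by simp [ZMod.card]
    _ ≤ _ := sum_le_sum fun w _ => by
      rcases h w with h | h | h <;> rw [if_pos h] <;> omega

/-- a tight covering: exactly one element in every triple -/
theorem Cov.exact {F : Finset (ZMod M)} (h : Cov F) (ht : 3 * F.card ≤ M) (w : ZMod M) :
    (if w ∈ F then 1 else 0) + (if w + 1 ∈ F then 1 else 0) + (if w + 2 ∈ F then 1 else 0) = 1 := by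
  have h1 : ∀ w ∈ (univ : Finset (ZMod M)), 1 ≤ ((if w ∈ F then 1 else 0) +
      (if w + 1 ∈ F then 1 else 0) + (if w + 2 ∈ F then 1 else 0)) := fun w _ => by
    rcases h w with h | h | h <;> rw [if_pos h] <;> omega
  have h2 : ∑ w : ZMod M, 1 = ∑ w : ZMod M, ((if w ∈ F then 1 else 0) +
      (if w + 1 ∈ F then 1 else 0) + (if w + 2 ∈ F then 1 else 0)) := by
    refine le_antisymm (sum_le_sum h1) ?_
    rw [sum_three F]
    simpa [ZMod.card] using ht
  exact ((sum_eq_sum_iff_of_le h1).1 h2 w (mem_univ _)).symm

theorem Cov.next {F : Finset (ZMod M)} (h : Cov F) (ht : 3 * F.card ≤ M) {w : ZMod M}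
    (hw : w ∈ F) : w + 1 ∉ F ∧ w + 2 ∉ F ∧ w + 3 ∈ F := by
  have h1 := h.exact ht w
  rw [if_pos hw] at h1
  have h2 : w + 1 ∉ F := fun h' => by
    rw [if_pos h'] at h1
    omega
  have h3 : w + 2 ∉ F := fun h' => by
    rw [if_pos h'] at h1
    omega
  refine ⟨h2, h3, ?_⟩
  rcases h (w + 1) with h4 | h4 | h4
  · exact absurd h4 h2
  · rw [add_assoc, one_add_one_eq_two] at h4
    exact absurd h4 h3
  · rw [add_assoc] at h4
    convert h4 using 2
    norm_num

theorem Cov.orbit {F : Finset (ZMod M)} (h : Cov F) (ht : 3 * F.card ≤ M) {w : ZMod M}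
    (hw : w ∈ F) (k : ℕ) : w + 3 * k ∈ F := by
  induction k with
  | zero => simpa using hw
  | succ k ih =>
    have := (h.next ht ih).2.2
    convert this using 1
    push_cast
    ring

theorem Cov.mem_iff {F : Finset (ZMod M)} (h : Cov F) (ht : 3 * F.card ≤ M) {w : ZMod M}
    (hw : w ∈ F) (n : ℕ) : w + n ∈ F ↔ n % 3 = 0 := by
  have h1 := h.orbit ht hw (n / 3)
  have h2 := h.next ht h1
  have h3 : (n : ZMod M) = 3 * (n / 3 : ℕ) + (n % 3 : ℕ) := by
    conv_lhs => rw [← Nat.div_add_mod n 3]
    push_cast
    ring
  have h4 : n % 3 = 0 ∨ n % 3 = 1 ∨ n % 3 = 2 := by omega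
  rw [h3, ← add_assoc]
  rcases h4 with h4 | h4 | h4
  · rw [h4]
    simpa using h1
  · rw [h4]
    simpa using h2.1
  · rw [h4]
    simpa using h2.2.1

/-- tight coverings with a common element are equal -/
theorem Cov.eq {F F' : Finset (ZMod M)} (h : Cov F) (ht : 3 * F.card ≤ M) (h' : Cov F')
    (ht' : 3 * F'.card ≤ M) {w : ZMod M} (hw : w ∈ F) (hw' : w ∈ F') : F = F' := by
  ext v
  have h1 : v = w + ((v - w).val : ℕ) := by simp
  rw [h1, h.mem_iff ht hw, h'.mem_iff ht' hw']

/-- two consecutive positions outside a set without consecutive elements -/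
theorem exists_consecutive (hM : Odd M) (P : ZMod M → Prop) (hP : ∀ i, ¬ (P i ∧ P (i + 1))) :
    ∃ i, ¬ P i ∧ ¬ P (i + 1) := by
  classical
  by_contra hcon
  push Not at hcon
  have h1 : ∀ i, (if P i then 1 else 0) + (if P (i + 1) then 1 else 0) = 1 := by
    intro i
    by_cases h2 : P i
    · have h3 : ¬ P (i + 1) := fun h => hP i ⟨h2, h⟩
      simp [h2, h3]
    · simp [h2, hcon i h2]
  have h2 : ∑ i : ZMod M, ((if P i then 1 else 0) + (if P (i + 1) then 1 else 0)) = M := by
    rw [sum_congr rfl fun i _ => h1 i]
    simp [ZMod.card]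
  rw [sum_add_distrib, Fintype.sum_equiv (Equiv.addRight 1)
    (fun i => if P (i + 1) then 1 else 0) (fun i => if P i then 1 else 0) fun w => rfl] at h2
  exact (Nat.not_even_iff_odd.2 hM) ⟨_, h2.symm⟩

/-- a set without consecutive elements has at most `M / 2` elements -/
theorem card_le_half (P : ZMod M → Prop) [DecidablePred P] (hP : ∀ i, ¬ (P i ∧ P (i + 1))) :
    2 * (univ.filter P).card ≤ M := by
  have h1 : ∑ i : ZMod M, ((if P i then 1 else 0) + (if P (i + 1) then 1 else 0)) ≤ M := by
    calc _ ≤ ∑ i : ZMod M, 1 := sum_le_sum fun i _ => by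
          by_cases h2 : P i
          · have h3 : ¬ P (i + 1) := fun h => hP i ⟨h2, h⟩
            simp [h2, h3]
          · by_cases h3 : P (i + 1) <;> simp [h2, h3]
      _ = M := by simp [ZMod.card]
  rw [sum_add_distrib, Fintype.sum_equiv (Equiv.addRight 1)
    (fun i => if P (i + 1) then 1 else 0) (fun i => if P i then 1 else 0) fun w => rfl] at h1
  rw [card_filter]
  omega

end Cyclic

section Windows

variable {M : ℕ} {J Q : Type*} [DecidableEq Q]

/-- three consecutive vertices of the class `a` -/
def tri (x : J → ZMod M ≃ Q) (a : J) (i : ZMod M) : Finset Q :=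
  {x a (i - 1), x a i, x a (i + 1)}

theorem mem_tri {x : J → ZMod M ≃ Q} {a : J} {i : ZMod M} {v : Q} :
    v ∈ tri x a i ↔ v = x a (i - 1) ∨ v = x a i ∨ v = x a (i + 1) := by
  simp [tri]

theorem mem_tri' {x : J → ZMod M ≃ Q} {a : J} {i : ZMod M} {v : Q} :
    v ∈ tri x a i ↔ (x a).symm v = i - 1 ∨ (x a).symm v = i ∨ (x a).symm v = i + 1 := by
  simp only [mem_tri, Equiv.symm_apply_eq]

theorem card_tri (x : J → ZMod M ≃ Q) (a : J) (i : ZMod M) : (tri x a i).card ≤ 3 :=
  card_le_three

/-- the relation `u` and `v` are equal or neighbours in the class `c` is symmetric -/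
theorem tri_symm {x : J → ZMod M ≃ Q} {c : J} {u v : Q} :
    v ∈ tri x c ((x c).symm u) ↔ u ∈ tri x c ((x c).symm v) := by
  simp only [mem_tri']
  constructor
  · rintro (h | h | h)
    · right; right
      rw [h, sub_add_cancel]
    · right; left
      rw [h]
    · left
      rw [h, add_sub_cancel_right]
  · rintro (h | h | h)
    · right; right
      rw [h, sub_add_cancel]
    · right; left
      rw [h]
    · left
      rw [h, add_sub_cancel_right]

/-- the closed neighbourhood of a set of vertices in the class `c` -/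
def nbh (x : J → ZMod M ≃ Q) (c : J) (W : Finset Q) : Finset Q :=
  W.biUnion fun u => tri x c ((x c).symm u)

theorem mem_nbh {x : J → ZMod M ≃ Q} {c : J} {W : Finset Q} {v : Q} :
    v ∈ nbh x c W ↔ ∃ u ∈ W, v ∈ tri x c ((x c).symm u) := by
  simp [nbh]

theorem self_mem_tri (x : J → ZMod M ≃ Q) (c : J) (u : Q) : u ∈ tri x c ((x c).symm u) := by
  simp [mem_tri]

theorem card_nbh (x : J → ZMod M ≃ Q) (c : J) (W : Finset Q) : (nbh x c W).card ≤ 3 * W.card := by
  refine card_biUnion_le.trans ?_
  calc ∑ u ∈ W, (tri x c ((x c).symm u)).card ≤ ∑ u ∈ W, 3 := sum_le_sum fun u _ => card_tri _ _ _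
    _ = 3 * W.card := by rw [sum_const, smul_eq_mul, mul_comm]

variable [NeZero M]

/-- the greedy choice of a window -/
theorem exists_tri (x : J → ZMod M ≃ Q) (b : J) (F : Finset Q) (B : ZMod M → Prop)
    [DecidablePred B] (h : 3 * F.card + (univ.filter B).card < M) :
    ∃ i, ¬ B i ∧ Disjoint (tri x b i) F := by
  classical
  by_contra hcon
  push Not at hcon
  have h1 : (univ : Finset (ZMod M)) ⊆
      univ.filter B ∪ F.biUnion fun v => {(x b).symm v + 1, (x b).symm v, (x b).symm v - 1} := by
    intro i _
    by_cases hB : B i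
    · exact mem_union_left _ (mem_filter.2 ⟨mem_univ _, hB⟩)
    · refine mem_union_right _ ?_
      obtain ⟨v, hv, hvF⟩ := not_disjoint_iff.1 (hcon i hB)
      rw [mem_biUnion]
      refine ⟨v, hvF, ?_⟩
      simp only [mem_insert, mem_singleton]
      rcases mem_tri'.1 hv with h2 | h2 | h2
      · left
        rw [h2, sub_add_cancel]
      · right; left
        rw [h2]
      · right; right
        rw [h2, add_sub_cancel_right]
  have h2 := card_le_card h1
  rw [card_univ, ZMod.card] at h2
  have h3 := card_union_le (univ.filter B)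
    (F.biUnion fun v => {(x b).symm v + 1, (x b).symm v, (x b).symm v - 1})
  have h4 : (F.biUnion fun v =>
      ({(x b).symm v + 1, (x b).symm v, (x b).symm v - 1} : Finset (ZMod M))).card ≤
      3 * F.card := by
    refine card_biUnion_le.trans ?_
    calc _ ≤ ∑ u ∈ F, 3 := sum_le_sum fun u _ => card_le_three
      _ = 3 * F.card := by rw [sum_const, smul_eq_mul, mul_comm]
  omega

/-- the set of positions -/
theorem cov_of_blocked {x : J → ZMod M ≃ Q} {b : J} {F : Finset Q}
    (h : ∀ i, ¬ Disjoint (tri x b i) F) : Cov (F.map (x b).symm.toEmbedding) := by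
  intro w
  obtain ⟨v, hv, hvF⟩ := not_disjoint_iff.1 (h (w + 1))
  have h1 : (x b).symm v ∈ F.map (x b).symm.toEmbedding := mem_map_of_mem _ hvF
  rcases mem_tri'.1 hv with h2 | h2 | h2
  · left
    rw [h2, add_sub_cancel_right] at h1
    exact h1
  · right; left
    rw [h2] at h1
    exact h1
  · right; right
    rw [h2, add_assoc, one_add_one_eq_two] at h1
    exact h1

/-- two small blocking sets with a common vertex are equal -/
theorem blocked_eq {x : J → ZMod M ≃ Q} {b : J} {F F' : Finset Q}
    (h : ∀ i, ¬ Disjoint (tri x b i) F) (ht : 3 * F.card ≤ M)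
    (h' : ∀ i, ¬ Disjoint (tri x b i) F') (ht' : 3 * F'.card ≤ M) {v : Q} (hv : v ∈ F)
    (hv' : v ∈ F') : F = F' := by
  have h1 := cov_of_blocked h
  have h2 := cov_of_blocked h'
  have h3 := h1.eq (by rwa [card_map]) h2 (by rwa [card_map]) (w := (x b).symm v)
    (mem_map_of_mem _ hv) (mem_map_of_mem _ hv')
  exact map_injective _ h3

theorem blocked_card {x : J → ZMod M ≃ Q} {b : J} {F : Finset Q}
    (h : ∀ i, ¬ Disjoint (tri x b i) F) : M ≤ 3 * F.card := by
  have := (cov_of_blocked h).card
  rwa [card_map] at this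

omit [NeZero M] in
theorem disjoint_nbh_symm {x : J → ZMod M ≃ Q} {c : J} {W W' : Finset Q}
    (h : Disjoint W (nbh x c W')) : Disjoint W' (nbh x c W) := by
  rw [disjoint_left] at h ⊢
  intro v hv hv'
  obtain ⟨u, hu, huv⟩ := mem_nbh.1 hv'
  exact h hu (mem_nbh.2 ⟨v, hv, tri_symm.1 huv⟩)

omit [NeZero M] in
theorem subset_nbh (x : J → ZMod M ≃ Q) (c : J) (W : Finset Q) : W ⊆ nbh x c W :=
  fun v hv => mem_nbh.2 ⟨v, hv, self_mem_tri x c v⟩

/-- the ends of the window are neighbours in the class `c` -/
def Bad (x : J → ZMod M ≃ Q) (c a : J) (i : ZMod M) : Prop :=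
  x a (i + 1) ∈ tri x c ((x c).symm (x a (i - 1)))

omit [NeZero M] in
theorem card_nbh_tri (x : J → ZMod M ≃ Q) (c a : J) (i : ZMod M) :
    (nbh x c (tri x a i)).card ≤ 9 := by
  have h1 := card_nbh x c (tri x a i)
  have h2 := card_tri x a i
  omega

/-- the greedy choice of the windows of several classes -/
theorem exists_greedy [DecidableEq J] (x : J → ZMod M ≃ Q) (c : J)
    (H2 : ∀ a, a ≠ c → ∀ i, ¬ (Bad x c a i ∧ Bad x c a (i + 1))) (S : Finset J)
    (hS : ∀ a ∈ S, a ≠ c) (hcard : 54 * (S.card - 1) < M) :
    ∃ m : J → ZMod M, (∀ a ∈ S, ¬ Bad x c a (m a)) ∧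
      ∀ a ∈ S, ∀ a' ∈ S, a ≠ a' → Disjoint (tri x a (m a)) (nbh x c (tri x a' (m a'))) := by
  classical
  induction S using Finset.induction_on with
  | empty => exact ⟨fun _ => 0, by simp, by simp⟩
  | insert b S hb ih =>
    rw [card_insert_of_notMem hb] at hcard
    obtain ⟨m, hm1, hm2⟩ := ih (fun a ha => hS a (mem_insert_of_mem ha)) (by omega)
    have hF : (S.biUnion fun a => nbh x c (tri x a (m a))).card ≤ 9 * S.card := by
      refine card_biUnion_le.trans ?_
      calc _ ≤ ∑ a ∈ S, 9 := sum_le_sum fun a _ => card_nbh_tri _ _ _ _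
        _ = 9 * S.card := by rw [sum_const, smul_eq_mul, mul_comm]
    have hB := card_le_half (Bad x c b) (H2 b (hS b (mem_insert_self _ _)))
    have h0 : 0 < M := Nat.pos_of_ne_zero (NeZero.ne M)
    obtain ⟨i, hi, hd⟩ := exists_tri x b (S.biUnion fun a => nbh x c (tri x a (m a)))
      (Bad x c b) (by omega)
    have hd' : ∀ a ∈ S, Disjoint (tri x b i) (nbh x c (tri x a (m a))) := fun a ha =>
      disjoint_of_subset_right (subset_biUnion_of_mem
        (fun a => nbh x c (tri x a (m a))) ha) hd
    refine ⟨Function.update m b i, ?_, ?_⟩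
    · intro a ha
      rcases mem_insert.1 ha with h3 | h3
      · subst h3
        rwa [Function.update_self]
      · rw [Function.update_of_ne (ne_of_mem_of_not_mem h3 hb)]
        exact hm1 a h3
    · intro a ha a' ha' hne
      rcases mem_insert.1 ha with h3 | h3
      · subst h3
        rcases mem_insert.1 ha' with h4 | h4
        · exact absurd h4.symm hne
        · rw [Function.update_self, Function.update_of_ne (ne_of_mem_of_not_mem h4 hb)]
          exact hd' a' h4
      · rcases mem_insert.1 ha' with h4 | h4
        · subst h4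
          rw [Function.update_self, Function.update_of_ne (ne_of_mem_of_not_mem h3 hb)]
          exact disjoint_nbh_symm (hd' a h3)
        · rw [Function.update_of_ne (ne_of_mem_of_not_mem h3 hb),
            Function.update_of_ne (ne_of_mem_of_not_mem h4 hb)]
          exact hm2 a h3 a' h4 hne

theorem pow_bound (r : ℕ) (hr : 4 ≤ r) : 54 * (r - 2) < 2 * 3 ^ r ∧ 54 * (r - 3) < 3 ^ r := by
  induction r, hr using Nat.le_induction with
  | base => norm_num
  | succ n hn ih =>
    rw [pow_succ]
    omega

/-- two windows with consecutive centres of the class `b` do not both block the class `l` -/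
theorem not_both_blocked (x : J → ZMod M ≃ Q) (c b l : J) (hM : 27 ≤ M) (i : ZMod M)
    (h : ∀ j, ¬ Disjoint (tri x l j) (nbh x c (tri x b i)))
    (h' : ∀ j, ¬ Disjoint (tri x l j) (nbh x c (tri x b (i + 1)))) : False := by
  have c1 := card_nbh_tri x c b i
  have c2 := card_nbh_tri x c b (i + 1)
  have d1 := blocked_card h
  have d2 := blocked_card h'
  have hM' : M = 27 := by omega
  subst hM'
  have e1 : (nbh x c (tri x b i)).card = 9 := by omega
  have e2 : (nbh x c (tri x b (i + 1))).card = 9 := by omega
  have heq := blocked_eq h (by omega) h' (by omega) (v := x b i)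
    (subset_nbh _ _ _ (by simp [mem_tri])) (subset_nbh _ _ _ (by simp [mem_tri]))
  -- the neighbourhoods of the three vertices are disjoint
  have key : ∀ u v w : Q, (nbh x c {u, v, w}).card = 9 →
      Disjoint (tri x c ((x c).symm u)) (tri x c ((x c).symm v) ∪ tri x c ((x c).symm w)) := by
    intro u v w h9
    have h1 : nbh x c {u, v, w} = tri x c ((x c).symm u) ∪
        (tri x c ((x c).symm v) ∪ tri x c ((x c).symm w)) := by
      ext z
      simp [mem_nbh]
    rw [h1] at h9
    have h2 := card_union_add_card_inter (tri x c ((x c).symm u))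
      (tri x c ((x c).symm v) ∪ tri x c ((x c).symm w))
    have h3 := card_union_le (tri x c ((x c).symm v)) (tri x c ((x c).symm w))
    have h4 := card_tri x c ((x c).symm u)
    have h5 := card_tri x c ((x c).symm v)
    have h6 := card_tri x c ((x c).symm w)
    rw [disjoint_iff_inter_eq_empty, ← card_eq_zero]
    omega
  have g1 : i + 1 - 1 = i := by ring
  have k1 := key (x b (i - 1)) (x b i) (x b (i + 1)) e1
  have k2 := key (x b (i + 1 + 1)) (x b i) (x b (i + 1)) (by
    have : ({x b (i + 1 + 1), x b i, x b (i + 1)} : Finset Q) = tri x b (i + 1) := by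
      unfold tri
      rw [g1]
      ext z
      simp only [mem_insert, mem_singleton]
      tauto
    rw [this]
    exact e2)
  -- hence the neighbourhoods of the ends agree
  have hsub : tri x c ((x c).symm (x b (i - 1))) ⊆ tri x c ((x c).symm (x b (i + 1 + 1))) := by
    intro z hz
    have h1 : z ∈ nbh x c (tri x b (i + 1)) := by
      rw [← heq]
      exact mem_nbh.2 ⟨x b (i - 1), by simp [mem_tri], hz⟩
    obtain ⟨u, hu, hzu⟩ := mem_nbh.1 h1
    rcases mem_tri.1 hu with rfl | rfl | rfl
    · rw [g1] at hzu
      exact absurd (mem_union_left _ hzu) (disjoint_left.1 k1 hz)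
    · exact absurd (mem_union_right _ hzu) (disjoint_left.1 k1 hz)
    · exact hzu
  set p := (x c).symm (x b (i - 1)) with hp
  set q := (x c).symm (x b (i + 1 + 1)) with hq
  have m1 : x c (p - 1) ∈ tri x c q := hsub (by simp [mem_tri])
  have m2 : x c p ∈ tri x c q := hsub (by simp [mem_tri])
  have m3 : x c (p + 1) ∈ tri x c q := hsub (by simp [mem_tri])
  simp only [mem_tri, (x c).injective.eq_iff] at m1 m2 m3
  have hpq : p = q := by
    revert m1 m2 m3
    generalize p = p
    generalize q = q
    intro m1 m2 m3
    rcases m1 with m1 | m1 | m1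
    · exact sub_left_injective m1
    · exfalso
      rcases m3 with m3 | m3 | m3
      · rw [← m1] at m3
        have : (3 : ZMod 27) = 0 := by linear_combination m3
        exact absurd this (by decide)
      · rw [← m1] at m3
        have : (2 : ZMod 27) = 0 := by linear_combination m3
        exact absurd this (by decide)
      · rw [← m1] at m3
        have : (1 : ZMod 27) = 0 := by linear_combination m3
        exact absurd this (by decide)
    · exfalso
      have h5 : q = p - 2 := by linear_combination -m1
      rw [h5] at m3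
      rcases m3 with m3 | m3 | m3
      · have : (4 : ZMod 27) = 0 := by linear_combination m3
        exact absurd this (by decide)
      · have : (3 : ZMod 27) = 0 := by linear_combination m3
        exact absurd this (by decide)
      · have : (2 : ZMod 27) = 0 := by linear_combination m3
        exact absurd this (by decide)
  have h6 := (x b).injective ((x c).symm.injective hpq)
  have : (3 : ZMod 27) = 0 := by linear_combination -h6
  exact absurd this (by decide)

section Final

variable [Fintype J] [DecidableEq J]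

/-- the conclusion of the choice: `m a` is the centre of the window of the class `a`, `l` is the
last class and `w` the centre of the dense window -/
structure Choice (x : J → ZMod M ≃ Q) (c : J) (m : J → ZMod M) (l : J) (w : ZMod M) : Prop where
  lc : l ≠ c
  sep : ∀ a, a ≠ c → ∀ a', a' ≠ c → a ≠ a' → Disjoint (tri x a (m a)) (nbh x c (tri x a' (m a')))
  good : ∀ a, a ≠ c → a ≠ l → ¬ Bad x c a (m a)
  dense : ∀ a, a ≠ c → Disjoint (tri x c w) (tri x a (m a))

theorem Choice.finish {x : J → ZMod M ≃ Q} {c l : J} (hl : l ≠ c) {m : J → ZMod M} {j : ZMod M}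
    (h1 : ∀ a, a ≠ c → a ≠ l → ¬ Bad x c a (m a))
    (h2 : ∀ a, a ≠ c → a ≠ l → ∀ a', a' ≠ c → a' ≠ l → a ≠ a' →
      Disjoint (tri x a (m a)) (nbh x c (tri x a' (m a'))))
    (h3 : ∀ a, a ≠ c → a ≠ l → Disjoint (tri x l j) (nbh x c (tri x a (m a))))
    (hM : 9 * (Fintype.card J - 1) < M) :
    ∃ (m : J → ZMod M) (w : ZMod M), Choice x c m l w := by
  classical
  set m' := Function.update m l j with hm'
  have e1 : m' l = j := Function.update_self _ _ _
  have e2 : ∀ a, a ≠ l → m' a = m a := fun a ha => Function.update_of_ne ha _ _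
  obtain ⟨w, -, hw⟩ := exists_tri x c ((univ.erase c).biUnion fun a => tri x a (m' a))
    (fun _ => False) (by
      have h4 : ((univ.erase c).biUnion fun a => tri x a (m' a)).card ≤
          3 * (Fintype.card J - 1) := by
        refine card_biUnion_le.trans ?_
        calc _ ≤ ∑ a ∈ univ.erase c, 3 := sum_le_sum fun a _ => card_tri _ _ _
          _ = 3 * (Fintype.card J - 1) := by
            rw [sum_const, smul_eq_mul, mul_comm, card_erase_of_mem (mem_univ _), card_univ]
      simp only [filter_false, card_empty]
      omega)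
  refine ⟨m', w, hl, ?_, ?_, ?_⟩
  · intro a ha a' ha' hne
    by_cases hal : a = l
    · subst hal
      rw [e1, e2 a' hne.symm]
      exact h3 a' ha' hne.symm
    · by_cases hal' : a' = l
      · subst hal'
        rw [e1, e2 a hal]
        exact disjoint_nbh_symm (h3 a ha hal)
      · rw [e2 a hal, e2 a' hal']
        exact h2 a ha hal a' ha' hal' hne
  · intro a ha hal
    rw [e2 a hal]
    exact h1 a ha hal
  · intro a ha
    exact disjoint_of_subset_right
      (subset_biUnion_of_mem (fun a => tri x a (m' a)) (mem_erase.2 ⟨ha, mem_univ _⟩)) hw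

/-- **Choice of the windows.** -/
theorem exists_choice (x : J → ZMod M ≃ Q) (c : J) (hodd : Odd M) (hr : 2 ≤ Fintype.card J)
    (hM : 3 ^ Fintype.card J ≤ M)
    (H2 : ∀ a, a ≠ c → ∀ i, ¬ (Bad x c a i ∧ Bad x c a (i + 1))) :
    ∃ (m : J → ZMod M) (l : J) (w : ZMod M), Choice x c m l w := by
  classical
  obtain ⟨l, hl⟩ : ∃ l, l ≠ c := by
    have : 1 < Fintype.card J := by omega
    have := Fintype.one_lt_card_iff_nontrivial.1 this
    exact exists_ne c
  rcases Nat.lt_or_ge (Fintype.card J) 3 with h3 | h3
  · -- two classes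
    have h2 : Fintype.card J = 2 := by omega
    have hall : ∀ a, a ≠ c → a = l := by
      intro a ha
      by_contra hal
      have h4 : ({a, l, c} : Finset J).card ≤ Fintype.card J := card_le_univ _
      rw [card_insert_of_notMem (by simp [hal, ha]), card_pair hl] at h4
      omega
    by_cases h9 : M = 9
    · subst h9
      have : ∃ i w, Disjoint (tri x c w) (tri x l i) := by
        by_contra hcon
        push Not at hcon
        have h5 := blocked_eq (hcon 0) (by have := card_tri x l 0; omega) (hcon 1)
          (by have := card_tri x l 1; omega) (v := x l 0) (by simp [mem_tri]) (by simp [mem_tri])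
        have h6 : x l (0 - 1) ∈ tri x l 1 := by
          rw [← h5]
          simp [mem_tri]
        simp only [mem_tri, (x l).injective.eq_iff] at h6
        revert h6
        decide
      obtain ⟨i, w, hw⟩ := this
      refine ⟨fun _ => i, l, w, hl, ?_, ?_, ?_⟩
      · intro a ha a' ha' hne
        exact absurd ((hall a ha).trans (hall a' ha').symm) hne
      · intro a ha hal
        exact absurd (hall a ha) hal
      · intro a ha
        rw [hall a ha]
        exact hw
    · rw [h2] at hM
      have h10 : 9 * (Fintype.card J - 1) < M := by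
        rw [h2]
        omega
      obtain ⟨m, w, h⟩ := Choice.finish (x := x) hl (m := fun _ => 0) (j := 0)
        (fun a ha hal => absurd (hall a ha) hal) (fun a ha hal => absurd (hall a ha) hal)
        (fun a ha hal => absurd (hall a ha) hal) h10
      exact ⟨m, l, w, h⟩
  rcases Nat.lt_or_ge (Fintype.card J) 4 with h4 | h4
  · -- three classes
    have h2 : Fintype.card J = 3 := by omega
    rw [h2] at hM
    obtain ⟨b, hb⟩ : ∃ b, b ∉ ({l, c} : Finset J) := by
      by_contra hcon
      push Not at hcon
      have h5 : (univ : Finset J) ⊆ {l, c} := fun b _ => hcon b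
      have h6 := card_le_card h5
      have h7 := card_le_two (a := l) (b := c)
      rw [card_univ] at h6
      omega
    simp only [mem_insert, mem_singleton, not_or] at hb
    have hall : ∀ a, a ≠ c → a ≠ l → a = b := by
      intro a ha hal
      by_contra hab
      have h5 : ({a, b, l, c} : Finset J).card ≤ Fintype.card J := card_le_univ _
      rw [card_insert_of_notMem (by simp [hal, ha, hab]),
        card_insert_of_notMem (by simp [hb]), card_pair hl] at h5
      omega
    obtain ⟨i, hi, hi'⟩ := exists_consecutive hodd (Bad x c b) (H2 b hb.2)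
    obtain ⟨k, j, hk, hj⟩ : ∃ k j, ¬ Bad x c b k ∧ Disjoint (tri x l j) (nbh x c (tri x b k)) := by
      by_contra hcon
      push Not at hcon
      exact not_both_blocked x c b l (by omega) i (fun j => hcon i j hi)
        (fun j => hcon (i + 1) j hi')
    obtain ⟨m, w, h⟩ := Choice.finish (x := x) hl (m := fun _ => k) (j := j)
      (fun a ha hal => by
        rw [hall a ha hal]
        exact hk)
      (fun a ha hal a' ha' hal' hne => absurd ((hall a ha hal).trans (hall a' ha' hal').symm) hne)
      (fun a ha hal => by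
        rw [hall a ha hal]
        exact hj) (by
        rw [h2]
        omega)
    exact ⟨m, l, w, h⟩
  · -- at least four classes
    have hp := pow_bound (Fintype.card J) h4
    have hcS : ((univ.erase c).erase l).card = Fintype.card J - 2 := by
      rw [card_erase_of_mem (mem_erase.2 ⟨hl, mem_univ _⟩), card_erase_of_mem (mem_univ _),
        card_univ]
      omega
    have hmem : ∀ a, a ∈ (univ.erase c).erase l ↔ a ≠ l ∧ a ≠ c := by
      intro a
      simp
    obtain ⟨m, hm1, hm2⟩ := exists_greedy x c H2 ((univ.erase c).erase l)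
      (fun a ha => ((hmem a).1 ha).2) (by
        rw [hcS]
        have : Fintype.card J - 2 - 1 = Fintype.card J - 3 := by omega
        rw [this]
        omega)
    have hF : (((univ.erase c).erase l).biUnion fun a => nbh x c (tri x a (m a))).card ≤
        9 * (Fintype.card J - 2) := by
      refine card_biUnion_le.trans ?_
      calc _ ≤ ∑ a ∈ (univ.erase c).erase l, 9 := sum_le_sum fun a _ => card_nbh_tri _ _ _ _
        _ = 9 * (Fintype.card J - 2) := by rw [sum_const, smul_eq_mul, mul_comm, hcS]
    obtain ⟨j, -, hj⟩ := exists_tri x l _ (fun _ => False) (by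
      simp only [filter_false, card_empty]
      omega : 3 * (((univ.erase c).erase l).biUnion fun a => nbh x c (tri x a (m a))).card +
        (univ.filter fun _ : ZMod M => False).card < M)
    obtain ⟨m', w, h⟩ := Choice.finish (x := x) hl (m := m) (j := j)
      (fun a ha hal => hm1 a ((hmem a).2 ⟨hal, ha⟩))
      (fun a ha hal a' ha' hal' hne => hm2 a ((hmem a).2 ⟨hal, ha⟩) a' ((hmem a').2 ⟨hal', ha'⟩)
        hne)
      (fun a ha hal => disjoint_of_subset_right (subset_biUnion_of_mem
        (fun a => nbh x c (tri x a (m a))) ((hmem a).2 ⟨hal, ha⟩)) hj) (by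
        have h5 : 3 ^ 4 ≤ 3 ^ Fintype.card J := Nat.pow_le_pow_right (by norm_num) h4
        omega)
    exact ⟨m', l, w, h⟩

end Final

end Windows

end Pool.Agent.Helper18.TD
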