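import Pool.Agent.Helper18.TD.Glue

/-!
# The top-down step for odd order from `SkelStep`
-/

set_option autoImplicit false

namespace Pool.Agent.Helper18.TD

open Finset Pool.Agent.Helper82.Part Pool.Agent.Helper74.BL Pool.Agent.Helper43.BO
  Pool.Agent.Helper43.TD

theorem tdOdd_of_skelStep (hS : SkelStep) : TDOdd := by
  classical
  intro K _ _ _ J _ _ g f hodd hg hr hinj hci hM hE
  have := Fintype.ofFinite K
  set H := AddSubgroup.zmultiples g with hH
  have : Fintype (K ⧸ H) := Fintype.ofFinite _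
  obtain ⟨col, hd, hc⟩ := hE
  obtain ⟨hq1, hq2⟩ := CI.quot hci
  have hoddQ := odd_quot hodd H
  have himg : (univ.image f).image (QuotientAddGroup.mk' H) =
      univ.image fun j => QuotientAddGroup.mk' H (f j) := by
    rw [image_image]
    rfl
  rw [himg] at hq1
  have h0 : ∀ s ∈ univ.image (fun j => QuotientAddGroup.mk' H (f j)), s ≠ 0 := by
    rintro s hs rfl
    exact CI.not_le hq1 0 hs (by simp)
  have h00 : ∀ j, QuotientAddGroup.mk' H (f j) ≠ 0 := fun j =>
    h0 _ (mem_image_of_mem _ (mem_univ j))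
  have hfq : Function.Injective fun j => QuotientAddGroup.mk' H (f j) := by
    intro i j hij
    exact hinj (hq2 (by simp) (by simp) hij)
  have hneg : ∀ i j, QuotientAddGroup.mk' H (f i) + QuotientAddGroup.mk' H (f j) ≠ 0 := by
    intro i j h
    have h1 := CI.neg_notMem hq1 (fun x hx h => h0 x hx (eq_zero_of_odd hoddQ h))
      _ (mem_image_of_mem _ (mem_univ i))
    apply h1
    rw [neg_eq_of_add_eq_zero_right h]
    exact mem_image_of_mem _ (mem_univ j)
  obtain ⟨c₁⟩ : Nonempty J := Fintype.card_pos_iff.1 (by omega)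
  set A : Finset J := univ.filter fun a => ¬ ∀ C : K → ZMod 2,
    (∀ x j, col (QuotientAddGroup.mk' H x) j = a → C x = C (x + f j)) → ∀ x y, C x = C y with hA
  obtain ⟨T, σ, X, Y, Z, w₁, w₂, hsk⟩ := exists_skel (QuotientAddGroup.mk' H)
    (QuotientAddGroup.mk'_surjective H) f col hd hc (ends_injective hfq hneg)
    (rel_three hoddQ hq1) (Nat.card_eq_fintype_card (α := K ⧸ H) ▸ hoddQ) hr
    (Nat.card_eq_fintype_card (α := K ⧸ H) ▸ hM) c₁ A
  refine hS K (K ⧸ H) J (QuotientAddGroup.mk' H) g f col c₁ A T σ X Y Z w₁ w₂ ?_ hg ?_ h00 hd hc ?_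
    hsk
  · intro x
    rw [← AddMonoidHom.mem_ker, QuotientAddGroup.ker_mk']
  · exact Odd.of_dvd_nat hodd (addOrderOf_dvd_natCard g)
  · intro a
    rw [hA, mem_filter]
    simp only [mem_univ, true_and]

end Pool.Agent.Helper18.TD
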