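import Pool.Agent.Helper18.TD.Rel
import Pool.Agent.Helper39.TD.Tree
import Pool.Agent.Helper43.TD.Skel

/-!
# From the choice of the windows to the skeleton
-/

set_option autoImplicit false
set_option linter.unusedSectionVars false

namespace Pool.Agent.Helper18.TD

open Finset Pool.Agent.Helper74.BL Pool.Agent.Helper43.TD

section Enumerations

variable {Q : Type*} [AddCommGroup Q] [Fintype Q] [DecidableEq Q] {J : Type*} [Fintype J]
  [DecidableEq J]

/-- cyclic enumerations of all classes -/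
def Enums (fq : J → Q) (col : Q → J → J) (M : ℕ) (x : J → ZMod M ≃ Q)
    (e : J → ZMod M → Q × J) : Prop :=
  ∀ a, Enum (ends fq) (cls col a) M (x a) (e a)

variable {fq : J → Q} {col : Q → J → J} {M : ℕ} {x : J → ZMod M ≃ Q} {e : J → ZMod M → Q × J}

omit [Fintype Q] [DecidableEq Q] [Fintype J] [DecidableEq J] in
/-- edges are determined by their ends if there are no repetitions and no opposite labels -/
theorem ends_injective (hinj : Function.Injective fq) (hneg : ∀ i j, fq i + fq j ≠ 0) :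
    Function.Injective (ends fq) := by
  rintro ⟨y, i⟩ ⟨z, j⟩ h
  unfold ends at h
  simp only at h
  rcases Sym2.eq_iff.1 h with ⟨h1, h2⟩ | ⟨h1, h2⟩
  · subst h1
    rw [hinj (add_left_cancel h2)]
  · exfalso
    apply hneg j i
    rw [h1, add_assoc] at h2
    exact left_eq_add.1 h2.symm

theorem Enums.mem (h : Enums fq col M x e) (a : J) (i : ZMod M) : col (e a i).1 (e a i).2 = a :=
  mem_cls.1 (((h a).mem _).2 ⟨i, rfl⟩)

theorem Enums.step (h : Enums fq col M x e) (a : J) (i : ZMod M) :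
    Sg (univ.image fq) (x a (i + 1) - x a i) := by
  have h1 := (h a).ends i
  unfold ends at h1
  rcases Sym2.eq_iff.1 h1 with ⟨h1, h2⟩ | ⟨h1, h2⟩
  · left
    rw [← h1, ← h2, add_sub_cancel_left]
    exact mem_image_of_mem _ (mem_univ _)
  · right
    rw [← h1, ← h2, neg_sub, add_sub_cancel_left]
    exact mem_image_of_mem _ (mem_univ _)

theorem Enums.sg_of_tri (h : Enums fq col M x e) {c : J} {u v : Q}
    (huv : v ∈ tri x c ((x c).symm u)) (hne : v ≠ u) : Sg (univ.image fq) (v - u) := by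
  rcases mem_tri'.1 huv with h1 | h1 | h1
  · have h2 := h.step c ((x c).symm v)
    rw [h1, sub_add_cancel, Equiv.apply_symm_apply] at h2
    rw [← h1, Equiv.apply_symm_apply] at h2
    rcases h2 with h2 | h2
    · right
      rwa [neg_sub]
    · left
      rwa [neg_sub] at h2
  · exact absurd ((x c).symm.injective h1) hne
  · have h2 := h.step c ((x c).symm u)
    rwa [← h1, Equiv.apply_symm_apply, Equiv.apply_symm_apply] at h2

/-- neighbours in a class are joined by an edge of the class -/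
theorem Enums.edge_of_tri (h : Enums fq col M x e) {c : J} {u v : Q}
    (huv : v ∈ tri x c ((x c).symm u)) (hne : v ≠ u) :
    ∃ b, b ∈ cls col c ∧ ends fq b = s(u, v) := by
  rcases mem_tri'.1 huv with h1 | h1 | h1
  · refine ⟨e c ((x c).symm v), ((h c).mem _).2 ⟨_, rfl⟩, ?_⟩
    rw [(h c).ends, Equiv.apply_symm_apply, h1, sub_add_cancel, Equiv.apply_symm_apply,
      Sym2.eq_swap]
  · exact absurd ((x c).symm.injective h1) hne
  · refine ⟨e c ((x c).symm u), ((h c).mem _).2 ⟨_, rfl⟩, ?_⟩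
    rw [(h c).ends, Equiv.apply_symm_apply, ← h1, Equiv.apply_symm_apply]

theorem Enums.tri_of_edge (h : Enums fq col M x e) {c : J} {b : Q × J} (hb : b ∈ cls col c)
    {u v : Q} (huv : ends fq b = s(u, v)) : v ∈ tri x c ((x c).symm u) := by
  obtain ⟨i, rfl⟩ := ((h c).mem b).1 hb
  rw [(h c).ends] at huv
  rcases Sym2.eq_iff.1 huv with ⟨rfl, rfl⟩ | ⟨rfl, rfl⟩
  · simp [mem_tri]
  · simp [mem_tri]

theorem natCast_ne {M : ℕ} {k : ℕ} (hk : 0 < k) (hM : k < M) : (k : ZMod M) ≠ 0 := by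
  rw [Ne, ZMod.natCast_eq_zero_iff]
  intro h
  exact absurd (Nat.le_of_dvd hk h) (by omega)

/-- (H2) -/
theorem Enums.not_bad (h : Enums fq col M x e) (hM : 3 < M)
    (hrel : ∀ s t u : Q, Sg (univ.image fq) s → Sg (univ.image fq) t → Sg (univ.image fq) u →
      s + t + u = 0 → s = t ∧ t = u) (c a : J) (i : ZMod M) :
    ¬ (Bad x c a i ∧ Bad x c a (i + 1)) := by
  -- a bad centre gives three equal steps
  have key : ∀ k : ZMod M, Bad x c a k →
      x a k - x a (k - 1) = x a (k + 1) - x a k ∧ x a (k + 1) - x a k = x a (k - 1) - x a (k + 1) := by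
    intro k hk
    have h0 : x a (k + 1) ≠ x a (k - 1) := by
      intro h1
      have h2 := (x a).injective h1
      have h3 : ((2 : ℕ) : ZMod M) = 0 := by
        push_cast
        linear_combination h2
      exact natCast_ne (by norm_num) (by omega) h3
    have h1 := h.step a (k - 1)
    rw [sub_add_cancel] at h1
    have h2 := h.step a k
    have h3 := h.sg_of_tri hk h0
    have h4 : Sg (univ.image fq) (x a (k - 1) - x a (k + 1)) := by
      rcases h3 with h3 | h3
      · right
        rwa [neg_sub]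
      · left
        rwa [neg_sub] at h3
    exact hrel _ _ _ h1 h2 h4 (by abel)
  rintro ⟨h1, h2⟩
  obtain ⟨a1, a2⟩ := key i h1
  obtain ⟨b1, b2⟩ := key (i + 1) h2
  rw [add_sub_cancel_right] at b1 b2
  have h3 : x a (i + 1 + 1) = x a (i - 1) := by
    have h4 : x a (i + 1 + 1) = x a (i + 1) + (x a (i + 1 + 1) - x a (i + 1)) := by abel
    rw [h4, ← b1, a2]
    abel
  have h4 := (x a).injective h3
  have h5 : ((3 : ℕ) : ZMod M) = 0 := by
    push_cast
    linear_combination h4
  exact natCast_ne (by norm_num) hM h5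

/-- (H1) neighbours in a class are not neighbours in another class -/
theorem Enums.not_adj (h : Enums fq col M x e)
    (hends : Function.Injective (ends fq)) {c a : J} (hca : a ≠ c) {u v : Q}
    (huv : v ∈ tri x a ((x a).symm u)) (hne : v ≠ u) : v ∉ tri x c ((x c).symm u) := by
  intro h1
  obtain ⟨b, hb, hb'⟩ := h.edge_of_tri huv hne
  obtain ⟨d, hd, hd'⟩ := h.edge_of_tri h1 hne
  have h2 : b = d := hends (hb'.trans hd'.symm)
  subst h2
  exact hca ((mem_cls.1 hb).symm.trans (mem_cls.1 hd))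

end Enumerations

section Skeleton

variable {K Q : Type*} [AddCommGroup K] [AddCommGroup Q] [Fintype Q] [DecidableEq Q] {J : Type*}
  [Fintype J] [DecidableEq J]

/-- conversion of the two forms of a spanning tree with a section -/
theorem tree_convert {φ : K →+ Q} {f : J → K} {T : Finset (Q × J)}
    (hT : Helper39.TD.Tree (ends fun j => φ (f j)) T) {σ : Q → K} (h1 : ∀ q, φ (σ q) = q)
    (h2 : ∀ e ∈ T, σ (e.1 + φ (f e.2)) = σ e.1 + f e.2) : Helper43.TD.Tree φ f T σ := by
  refine ⟨h1, h2, ?_, ?_⟩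
  · intro C hC
    exact hT.conn C fun e he => bd_mk_eq_zero.2 (hC e he)
  · intro e he
    obtain ⟨S, hS1, hS2⟩ := hT.side e he
    have h3 : S e.1 ≠ S (e.1 + φ (f e.2)) := by
      intro h4
      exact hS2 (bd_mk_eq_zero.2 h4)
    refine ⟨fun q => S q + S e.1, z2_add_self _, ?_, ?_⟩
    · have h5 : ∀ a b : ZMod 2, a ≠ b → b + a = 1 := by decide
      exact h5 _ _ h3
    · intro e' he' hne
      have h4 := bd_mk_eq_zero.1 (hS1 e' (mem_erase.2 ⟨hne, he'⟩))
      simp only [h4]

open Classical in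
theorem exists_skel (φ : K →+ Q) (hφ : Function.Surjective φ) (f : J → K) (col : Q → J → J)
    (hd : Deg2 (fun j => φ (f j)) col) (hc : ∀ c, Conn (fun j => φ (f j)) col c)
    (hends : Function.Injective (ends fun j => φ (f j)))
    (hrel : ∀ s t u : Q, Sg (univ.image fun j => φ (f j)) s → Sg (univ.image fun j => φ (f j)) t →
      Sg (univ.image fun j => φ (f j)) u → s + t + u = 0 → s = t ∧ t = u)
    (hodd : Odd (Fintype.card Q)) (hr : 2 ≤ Fintype.card J)
    (hM : 3 ^ Fintype.card J ≤ Fintype.card Q) (c₁ : J) (A : Finset J) :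
    ∃ (T : Finset (Q × J)) (σ : Q → K) (X Y Z : J → Q) (w₁ w₂ : J → Q × J),
      Skel φ f col c₁ A T σ X Y Z w₁ w₂ := by
  have h9 : 3 ^ 2 ≤ 3 ^ Fintype.card J := Nat.pow_le_pow_right (by norm_num) hr
  have hM9 : 9 ≤ Fintype.card Q := by omega
  choose x e hE using fun c => exists_enum_cls hd (hc c) (by omega : 2 ≤ Fintype.card Q)
  have hEn : Enums (fun j => φ (f j)) col (Fintype.card Q) x e := hE
  have hne0 : NeZero (Fintype.card Q) := ⟨by omega⟩
  obtain ⟨m, l, w, hC⟩ := exists_choice x c₁ hodd hr hM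
    (fun a _ i => hEn.not_bad (by omega) hrel c₁ a i)
  set P : J → Q := fun a => x a (m a - 1) with hP
  set R : J → Q := fun a => x a (m a) with hR
  set S : J → Q := fun a => x a (m a + 1) with hS
  have hwin : ∀ a v, v ∈ tri x a (m a) ↔ v = P a ∨ v = R a ∨ v = S a := fun a v => mem_tri
  have tP : ∀ a, P a ∈ tri x a (m a) := fun a => (hwin a _).2 (Or.inl rfl)
  have tR : ∀ a, R a ∈ tri x a (m a) := fun a => (hwin a _).2 (Or.inr (Or.inl rfl))
  have tS : ∀ a, S a ∈ tri x a (m a) := fun a => (hwin a _).2 (Or.inr (Or.inr rfl))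
  have hone : (1 : ZMod (Fintype.card Q)) ≠ 0 := by
    have := natCast_ne (M := Fintype.card Q) (k := 1) (by norm_num) (by omega)
    simpa using this
  have htwo : (2 : ZMod (Fintype.card Q)) ≠ 0 := by
    have := natCast_ne (M := Fintype.card Q) (k := 2) (by norm_num) (by omega)
    simpa using this
  have nPR : ∀ a i, x a (i - 1) ≠ x a i := by
    intro a i h
    apply hone
    linear_combination -(x a).injective h
  have nRS : ∀ a i, x a i ≠ x a (i + 1) := by
    intro a i h
    apply hone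
    linear_combination -(x a).injective h
  have nPS : ∀ a i, x a (i - 1) ≠ x a (i + 1) := by
    intro a i h
    apply htwo
    linear_combination -(x a).injective h
  -- separation of the windows
  have F1 : ∀ a, a ≠ c₁ → ∀ a', a' ≠ c₁ → a ≠ a' → ∀ u ∈ tri x a (m a), ∀ v ∈ tri x a' (m a'),
      u ∉ tri x c₁ ((x c₁).symm v) := by
    intro a ha a' ha' hne u hu v hv huv
    exact (disjoint_left.1 (hC.sep a ha a' ha' hne)) hu (mem_nbh.2 ⟨v, hv, huv⟩)
  have F1' : ∀ a, a ≠ c₁ → ∀ a', a' ≠ c₁ → a ≠ a' → ∀ u ∈ tri x a (m a), u ∉ tri x a' (m a') := by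
    intro a ha a' ha' hne u hu hu'
    exact F1 a ha a' ha' hne u hu u hu' (self_mem_tri x c₁ u)
  have F2 : ∀ a, a ≠ c₁ → ∀ u ∈ tri x a (m a), u ∉ tri x c₁ w := by
    intro a ha u hu hu'
    exact disjoint_left.1 (hC.dense a ha) hu' hu
  -- consecutive vertices of a window are not neighbours in the base class
  have N1 : ∀ a, a ≠ c₁ → R a ∉ tri x c₁ ((x c₁).symm (P a)) := by
    intro a ha
    refine hEn.not_adj hends ha ?_ (nPR a (m a)).symm
    simp [mem_tri, hP, hR]
  have N2 : ∀ a, a ≠ c₁ → ¬ Bad x c₁ a (m a) → S a ∉ tri x c₁ ((x c₁).symm (P a)) :=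
    fun a ha hb h => hb h
  -- the missing edge
  obtain ⟨cc, hcc, hccS, hccB⟩ : ∃ cc ∈ cls col c₁, S l ∈ ends (fun j => φ (f j)) cc ∧
      (Bad x c₁ l (m l) → ends (fun j => φ (f j)) cc = s(P l, S l)) := by
    by_cases hB : Bad x c₁ l (m l)
    · obtain ⟨b, hb, hb'⟩ := hEn.edge_of_tri (u := P l) (v := S l) hB (nPS l (m l)).symm
      exact ⟨b, hb, by rw [hb']; exact Sym2.mem_mk_right _ _, fun _ => hb'⟩
    · refine ⟨e c₁ ((x c₁).symm (S l)), ((hE c₁).mem _).2 ⟨_, rfl⟩, ?_, fun h => absurd h hB⟩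
      rw [(hE c₁).ends, Equiv.apply_symm_apply]
      exact Sym2.mem_mk_left _ _
  -- the ends of the missing edge are near `S l`
  have hccN : ∀ v, v ∈ ends (fun j => φ (f j)) cc → v ∈ tri x c₁ ((x c₁).symm (S l)) := by
    intro v hv
    by_cases hvS : v = S l
    · rw [hvS]
      exact self_mem_tri x c₁ _
    · have h1 : ends (fun j => φ (f j)) cc = s(S l, v) :=
        (Sym2.mem_and_mem_iff (fun h => hvS h.symm)).1 ⟨hccS, hv⟩
      exact hEn.tri_of_edge hcc h1
  -- the tree
  have hW : Helper39.TD.Wins (ends fun j => φ (f j)) (cls col c₁) (A.erase c₁) P R S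
      (fun a => e a (m a - 1)) (fun a => e a (m a)) := by
    refine ⟨?_, ?_, ?_, ?_, ?_, ?_, ?_, ?_⟩
    · intro a ha h
      exact (mem_erase.1 ha).1 ((hEn.mem a _).symm.trans (mem_cls.1 h))
    · intro a ha h
      exact (mem_erase.1 ha).1 ((hEn.mem a _).symm.trans (mem_cls.1 h))
    · intro a _
      rw [(hE a).ends, sub_add_cancel]
    · intro a _
      rw [(hE a).ends]
    · exact fun a _ => nPR a (m a)
    · exact fun a _ => nRS a (m a)
    · exact fun a _ => nPS a (m a)
    · intro a ha a' ha' hne v hv hv'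
      exact F1' a (mem_erase.1 ha).1 a' (mem_erase.1 ha').1 hne v ((hwin a v).2 hv)
        ((hwin a' v).2 hv')
  obtain ⟨T, hT⟩ := Helper39.TD.exists_tdTree (hE c₁) (hd.ev c₁) (conn_iff_cn.1 (hc c₁))
    (two_of_deg2 hd c₁) hcc hW
  obtain ⟨σ, hσ1, hσ2⟩ := Helper39.TD.exists_section hφ f hT.tree
  -- the final names
  set B : Prop := Bad x c₁ l (m l) with hB
  set X : J → Q := fun a => if a = c₁ then x c₁ (w - 1) else if a = l ∧ B then S a else P a with hX
  set Y : J → Q := fun a => if a = c₁ then x c₁ w else R a with hY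
  set Z : J → Q := fun a => if a = c₁ then x c₁ (w + 1) else if a = l ∧ B then P a else S a with hZ
  set w₁ : J → Q × J := fun a => if a = c₁ then e c₁ (w - 1) else
    if a = l ∧ B then e a (m a) else e a (m a - 1) with hw₁
  set w₂ : J → Q × J := fun a => if a = c₁ then e c₁ w else
    if a = l ∧ B then e a (m a - 1) else e a (m a) with hw₂
  have bas : X c₁ = x c₁ (w - 1) ∧ Y c₁ = x c₁ w ∧ Z c₁ = x c₁ (w + 1) ∧ w₁ c₁ = e c₁ (w - 1) ∧
      w₂ c₁ = e c₁ w := by
    refine ⟨?_, ?_, ?_, ?_, ?_⟩ <;> simp only [hX, hY, hZ, hw₁, hw₂, if_true]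
  have reg : ∀ a, a ≠ c₁ → ¬ (a = l ∧ B) → X a = P a ∧ Y a = R a ∧ Z a = S a ∧
      w₁ a = e a (m a - 1) ∧ w₂ a = e a (m a) := by
    intro a ha hr
    refine ⟨?_, ?_, ?_, ?_, ?_⟩ <;> simp only [hX, hY, hZ, hw₁, hw₂, if_neg ha, if_neg hr]
  have irr : ∀ a, a ≠ c₁ → (a = l ∧ B) → X a = S a ∧ Y a = R a ∧ Z a = P a ∧
      w₁ a = e a (m a) ∧ w₂ a = e a (m a - 1) := by
    intro a ha hr
    refine ⟨?_, ?_, ?_, ?_, ?_⟩ <;> simp only [hX, hY, hZ, hw₁, hw₂, if_neg ha, if_pos hr]
  have Yr : ∀ a, a ≠ c₁ → Y a = R a := by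
    intro a ha
    simp only [hY, if_neg ha]
  have Wn : ∀ a, a ≠ c₁ → ∀ v, Win X Y Z a v ↔ v ∈ tri x a (m a) := by
    intro a ha v
    rw [hwin]
    unfold Win
    by_cases hr : a = l ∧ B
    · obtain ⟨h1, h2, h3, -⟩ := irr a ha hr
      rw [h1, h2, h3]
      tauto
    · obtain ⟨h1, h2, h3, -⟩ := reg a ha hr
      rw [h1, h2, h3]
  have Wc : ∀ v, Win X Y Z c₁ v ↔ v ∈ tri x c₁ w := by
    intro v
    rw [mem_tri]
    unfold Win
    rw [bas.1, bas.2.1, bas.2.2.1]
  have memA : ∀ a, a ∈ A → a ≠ c₁ → a ∈ A.erase c₁ := fun a h1 h2 => mem_erase.2 ⟨h2, h1⟩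
  -- edges of the base class which are in the tree
  have big : ∀ b ∈ cls col c₁, b ≠ cc → (∀ a, a ≠ c₁ → ∀ v ∈ ends (fun j => φ (f j)) b,
      v ≠ R a ∧ v ≠ S a) → b ∈ T := by
    intro b hb hbc hbv
    refine hT.big b hb hbc fun a ha => ⟨fun h => ?_, fun h => ?_⟩
    · exact (hbv a (mem_erase.1 ha).1 _ h).1 rfl
    · exact (hbv a (mem_erase.1 ha).1 _ h).2 rfl
  have dense : ∀ b ∈ cls col c₁, (∀ v ∈ ends (fun j => φ (f j)) b, v ∈ tri x c₁ w) → b ∈ T := by
    intro b hb hbv
    refine big b hb ?_ ?_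
    · rintro rfl
      exact F2 l hC.lc (S l) (tS l) (hbv _ hccS)
    · intro a ha v hv
      refine ⟨?_, ?_⟩
      · rintro rfl
        exact F2 a ha _ (tR a) (hbv _ hv)
      · rintro rfl
        exact F2 a ha _ (tS a) (hbv _ hv)
  have hcl : ∀ (b : Q × J), b ∈ cls col c₁ ↔ col b.1 b.2 = c₁ := fun b => mem_cls
  -- the two edges of the base class at `P a` for a regular window
  have cherry : ∀ a, a ∈ A → a ≠ c₁ → ¬ (a = l ∧ B) → ∀ b ∈ cls col c₁,
      P a ∈ ends (fun j => φ (f j)) b → CherryEdge φ f col c₁ A T X Y Z a b := by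
    intro a haA ha hr b hb hPb
    obtain ⟨p, hp⟩ : ∃ p, ends (fun j => φ (f j)) b = s(P a, p) := id hPb
    obtain ⟨i, hi⟩ := ((hE c₁).mem b).1 hb
    have hpP : p ≠ P a := by
      intro h
      rw [← hi, (hE c₁).ends, h, Sym2.eq_iff] at hp
      rcases hp with ⟨h1, h2⟩ | ⟨h1, h2⟩
      · exact nRS c₁ i (h1.trans h2.symm)
      · exact nRS c₁ i (h1.trans h2.symm)
    have hpt : p ∈ tri x c₁ ((x c₁).symm (P a)) := hEn.tri_of_edge hb hp
    -- `p` is not in a window
    have hpw : ∀ a', a' ≠ c₁ → p ∉ tri x a' (m a') := by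
      intro a' ha' h
      by_cases haa : a' = a
      · subst haa
        rcases (hwin _ _).1 h with h1 | h1 | h1
        · exact hpP h1
        · rw [h1] at hpt
          exact N1 _ ha hpt
        · rw [h1] at hpt
          by_cases hal : a' = l
          · exact hr ⟨hal, by rw [hB, ← hal]; exact hpt⟩
          · exact hC.good a' ha hal hpt
      · exact F1 a' ha' a ha haa p h (P a) (tP a) hpt
    refine ⟨big b hb ?_ ?_, (hcl b).1 hb, p, ?_, ?_, ?_⟩
    · -- `b` is not the missing edge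
      rintro rfl
      have h1 := hccN (P a) hPb
      by_cases hal : a = l
      · subst hal
        have h2 : S a ∈ ends (fun j => φ (f j)) b := hccS
        rw [hp, Sym2.mem_iff] at h2
        rcases h2 with h2 | h2
        · exact nPS a (m a) h2.symm
        · exact hpw a ha (h2 ▸ tS a)
      · exact F1 a ha l hC.lc hal (P a) (tP a) (S l) (tS l) h1
    · intro a' ha' v hv
      rw [hp, Sym2.mem_iff] at hv
      rcases hv with rfl | rfl
      · by_cases haa : a = a'
        · subst haa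
          exact ⟨nPR a (m a), nPS a (m a)⟩
        · refine ⟨?_, ?_⟩
          · intro h
            exact F1' a ha a' ha' haa (P a) (tP a) (h ▸ tR a')
          · intro h
            exact F1' a ha a' ha' haa (P a) (tP a) (h ▸ tS a')
      · refine ⟨?_, ?_⟩
        · rintro rfl
          exact hpw a' ha' (tR a')
        · rintro rfl
          exact hpw a' ha' (tS a')
    · rw [(reg a ha hr).1]
      exact hp
    · rw [(reg a ha hr).1]
      exact hpP
    · intro a' _ ha' hw'
      exact hpw a' ha' ((Wn a' ha' p).1 hw')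
  refine ⟨T, σ, X, Y, Z, w₁, w₂, tree_convert hT.tree hσ1 hσ2, ?_, ?_, ?_, ?_, ?_, ?_, ?_, ?_, ?_,
    ?_, ?_, ?_⟩
  · -- w₁T
    intro a haA
    by_cases ha : a = c₁
    · subst ha
      rw [bas.2.2.2.1]
      refine dense _ (((hE a).mem _).2 ⟨_, rfl⟩) ?_
      intro v hv
      rw [(hE a).ends, sub_add_cancel, Sym2.mem_iff] at hv
      rw [mem_tri]
      tauto
    · by_cases hr : a = l ∧ B
      · rw [(irr a ha hr).2.2.2.1]
        exact hT.mem₂ a (memA a haA ha)
      · rw [(reg a ha hr).2.2.2.1]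
        exact hT.mem₁ a (memA a haA ha)
  · -- w₂T
    intro a haA
    by_cases ha : a = c₁
    · subst ha
      rw [bas.2.2.2.2]
      refine dense _ (((hE a).mem _).2 ⟨_, rfl⟩) ?_
      intro v hv
      rw [(hE a).ends, Sym2.mem_iff] at hv
      rw [mem_tri]
      tauto
    · by_cases hr : a = l ∧ B
      · rw [(irr a ha hr).2.2.2.2]
        exact hT.mem₁ a (memA a haA ha)
      · rw [(reg a ha hr).2.2.2.2]
        exact hT.mem₂ a (memA a haA ha)
  · -- w₁c
    intro a haA
    by_cases ha : a = c₁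
    · subst ha
      rw [bas.2.2.2.1]
      exact hEn.mem a _
    · by_cases hr : a = l ∧ B
      · rw [(irr a ha hr).2.2.2.1]
        exact hEn.mem a _
      · rw [(reg a ha hr).2.2.2.1]
        exact hEn.mem a _
  · -- w₂c
    intro a haA
    by_cases ha : a = c₁
    · subst ha
      rw [bas.2.2.2.2]
      exact hEn.mem a _
    · by_cases hr : a = l ∧ B
      · rw [(irr a ha hr).2.2.2.2]
        exact hEn.mem a _
      · rw [(reg a ha hr).2.2.2.2]
        exact hEn.mem a _
  · -- w₁e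
    intro a haA
    by_cases ha : a = c₁
    · subst ha
      rw [bas.2.2.2.1, bas.1, bas.2.1, (hE a).ends, sub_add_cancel]
    · by_cases hr : a = l ∧ B
      · obtain ⟨h1, h2, h3, h4, h5⟩ := irr a ha hr
        rw [h1, h2, h4, (hE a).ends, Sym2.eq_swap]
      · obtain ⟨h1, h2, h3, h4, h5⟩ := reg a ha hr
        rw [h1, h2, h4, (hE a).ends, sub_add_cancel]
  · -- w₂e
    intro a haA
    by_cases ha : a = c₁
    · subst ha
      rw [bas.2.2.2.2, bas.2.2.1, bas.2.1, (hE a).ends, Sym2.eq_swap]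
    · by_cases hr : a = l ∧ B
      · obtain ⟨h1, h2, h3, h4, h5⟩ := irr a ha hr
        rw [h3, h2, h5, (hE a).ends, sub_add_cancel]
      · obtain ⟨h1, h2, h3, h4, h5⟩ := reg a ha hr
        rw [h3, h2, h5, (hE a).ends, Sym2.eq_swap]
  · -- ne
    intro a haA
    by_cases ha : a = c₁
    · subst ha
      rw [bas.1, bas.2.1, bas.2.2.1]
      exact ⟨nPR a w, (nRS a w).symm, nPS a w⟩
    · by_cases hr : a = l ∧ B
      · obtain ⟨h1, h2, h3, h4, h5⟩ := irr a ha hr
        rw [h1, h2, h3]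
        exact ⟨(nRS a (m a)).symm, nPR a (m a), (nPS a (m a)).symm⟩
      · obtain ⟨h1, h2, h3, h4, h5⟩ := reg a ha hr
        rw [h1, h2, h3]
        exact ⟨nPR a (m a), (nRS a (m a)).symm, nPS a (m a)⟩
  · -- cls
    intro b hb
    rcases hT.sub b hb with h | ⟨a, ha, h⟩
    · exact Or.inl ((hcl b).1 h)
    · right
      obtain ⟨ha1, ha2⟩ := mem_erase.1 ha
      refine ⟨a, ha2, ?_⟩
      by_cases hr : a = l ∧ B
      · rw [(irr a ha1 hr).2.2.2.1, (irr a ha1 hr).2.2.2.2]
        exact h.symm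
      · rw [(reg a ha1 hr).2.2.2.1, (reg a ha1 hr).2.2.2.2]
        exact h
  · -- disj
    intro a _ b _ hab v hv hv'
    by_cases ha : a = c₁
    · subst ha
      exact F2 b hab.symm v ((Wn b hab.symm v).1 hv') ((Wc v).1 hv)
    · by_cases hb : b = c₁
      · subst hb
        exact F2 a ha v ((Wn a ha v).1 hv) ((Wc v).1 hv')
      · exact F1' a ha b hb hab v ((Wn a ha v).1 hv) ((Wn b hb v).1 hv')
  · -- degY
    intro a haA ha b hb b' hb' hbc hbc' h h'
    rw [Yr a ha] at h h'
    exact hT.oneY a (memA a haA ha) b hb ((hcl b).2 hbc) h b' hb' ((hcl b').2 hbc') h'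
  · -- degZ
    intro a haA ha b hb b' hb' hbc hbc' h h'
    by_cases hr : a = l ∧ B
    · rw [(irr a ha hr).2.2.1] at h h'
      by_contra hne
      have h1 : P a ∈ ends (fun j => φ (f j)) cc := by
        rw [hr.1, hccB hr.2]
        exact Sym2.mem_mk_left _ _
      rcases (two_of_deg2 hd c₁).two_edges ((hcl b).2 hbc) ((hcl b').2 hbc') hne h h' hcc h1 with
        h2 | h2
      · exact hT.nmc (h2 ▸ hb)
      · exact hT.nmc (h2 ▸ hb')
    · rw [(reg a ha hr).2.2.1] at h h'
      exact hT.oneZ a (memA a haA ha) b hb ((hcl b).2 hbc) h b' hb' ((hcl b').2 hbc') h'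
  · -- degX
    intro a haA ha
    by_cases hr : a = l ∧ B
    · left
      intro b hb hbc h
      rw [(irr a ha hr).1] at h
      refine hT.zeroZ a (memA a haA ha) ?_ b hb ((hcl b).2 hbc) h
      rw [hr.1]
      exact hccS
    · right
      set p := (x c₁).symm (P a) with hp
      have e1 : x c₁ p = P a := Equiv.apply_symm_apply _ _
      have m1 : e c₁ (p - 1) ∈ cls col c₁ := ((hE c₁).mem _).2 ⟨_, rfl⟩
      have m2 : e c₁ p ∈ cls col c₁ := ((hE c₁).mem _).2 ⟨_, rfl⟩
      have i1 : P a ∈ ends (fun j => φ (f j)) (e c₁ (p - 1)) := by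
        rw [(hE c₁).ends, sub_add_cancel, e1]
        exact Sym2.mem_mk_right _ _
      have i2 : P a ∈ ends (fun j => φ (f j)) (e c₁ p) := by
        rw [(hE c₁).ends, e1]
        exact Sym2.mem_mk_left _ _
      have hne : e c₁ (p - 1) ≠ e c₁ p := by
        intro h
        apply hone
        linear_combination -(hE c₁).inj h
      refine ⟨_, _, hne, cherry a haA ha hr _ m1 i1, cherry a haA ha hr _ m2 i2, ?_⟩
      intro b hb hbc h
      rw [(reg a ha hr).1] at h
      exact (two_of_deg2 hd c₁).two_edges m1 m2 hne i1 i2 ((hcl b).2 hbc) h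

end Skeleton

end Pool.Agent.Helper18.TD
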