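import Pool.Agent.Helper18.TD.Choice
import Pool.Agent.Helper43.BO.Odd
import Pool.Agent.Helper43.TD.Enum

/-!
# Relations of length three between the labels
-/

set_option autoImplicit false
set_option linter.unusedSectionVars false

namespace Pool.Agent.Helper18.TD

open Finset Pool.Agent.Helper82.Part Pool.Agent.Helper74.BL Pool.Agent.Helper43.BO

section Rel

variable {G : Type*} [AddCommGroup G] [DecidableEq G]

/-- `s` is a label or the negative of a label -/
def Sg (B : Finset G) (s : G) : Prop := s ∈ B ∨ -s ∈ B

theorem sg_mem {B : Finset G} {s : G} (h : Sg B s) :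
    s ∈ (⊥ : AddSubgroup G) ⊔ B.sup (fun x : G => AddSubgroup.zmultiples x) := by
  rw [bot_sup_eq]
  have h1 : ∀ y ∈ B, y ∈ B.sup (fun x : G => AddSubgroup.zmultiples x) := fun y hy =>
    (le_sup (f := fun x : G => AddSubgroup.zmultiples x) hy) (AddSubgroup.mem_zmultiples y)
  rcases h with h | h
  · exact h1 s h
  · simpa using neg_mem (h1 _ h)

/-- in a group of odd order `x` lies in every subgroup which contains `x + x` -/
theorem mem_of_two [Finite G] (hodd : Odd (Nat.card G)) {W : AddSubgroup G} {x : G}
    (h : x + x ∈ W) : x ∈ W := by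
  have h1 := odd_quot hodd W
  have h2 : (QuotientAddGroup.mk' W x) + (QuotientAddGroup.mk' W x) = 0 := by
    rw [← map_add, ← AddMonoidHom.mem_ker, QuotientAddGroup.ker_mk']
    exact h
  have h3 := eq_zero_of_odd h1 h2
  rwa [← AddMonoidHom.mem_ker, QuotientAddGroup.ker_mk'] at h3

/-- **relations of length three**: in a chain independent set of a group of odd order they are
`3 x = 0` -/
theorem rel_three [Finite G] (hodd : Odd (Nat.card G)) {B : Finset G}
    (h : CI (fun x : G => AddSubgroup.zmultiples x) ⊥ B) :
    ∀ s t u : G, Sg B s → Sg B t → Sg B u → s + t + u = 0 → s = t ∧ t = u := by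
  induction h with
  | empty =>
    intro s t u hs
    rcases hs with hs | hs <;> exact absurd hs (notMem_empty _)
  | @insert x B hB hx ih =>
    intro s t u hs ht hu hsum
    set W : AddSubgroup G := ⊥ ⊔ B.sup (fun x : G => AddSubgroup.zmultiples x) with hW
    have hxW : x ∉ W := fun h => hx (by rwa [AddSubgroup.zmultiples_le])
    have hnxW : -x ∉ W := fun h => hxW (by simpa using neg_mem h)
    have hx0 : x ≠ 0 := by
      rintro rfl
      exact hxW (zero_mem _)
    have h0 : ∀ s, Sg B s → s ≠ 0 := by
      rintro s hs rfl
      have h1 : (0 : G) ∈ B := by simpa [Sg] using hs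
      exact CI.not_le hB 0 h1 (by simp)
    have hsg : ∀ s, Sg (insert x B) s → (Sg B s ∧ s ∈ W) ∨ s = x ∨ s = -x := by
      intro s hs
      rcases hs with hs | hs
      · rcases mem_insert.1 hs with h | h
        · exact Or.inr (Or.inl h)
        · exact Or.inl ⟨Or.inl h, sg_mem (Or.inl h)⟩
      · rcases mem_insert.1 hs with h | h
        · exact Or.inr (Or.inr (by rw [← h, neg_neg]))
        · exact Or.inl ⟨Or.inr h, sg_mem (Or.inr h)⟩
    -- exactly one element outside
    have one : ∀ a b c : G, a ∈ W → b ∈ W → (c = x ∨ c = -x) → a + b + c = 0 → False := by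
      intro a b c ha hb hc habc
      have h1 : c = -(a + b) := by
        rw [eq_neg_iff_add_eq_zero, add_comm]
        exact habc
      have h2 : c ∈ W := by
        rw [h1]
        exact neg_mem (add_mem ha hb)
      rcases hc with rfl | rfl
      · exact hxW h2
      · exact hnxW h2
    have two : ∀ a b c : G, Sg B a → a ∈ W → (b = x ∨ b = -x) → (c = x ∨ c = -x) →
        a + b + c = 0 → False := by
      intro a b c ha haW hb hc habc
      have h2 : b + c ∈ W := by
        have : b + c = -a := by
          rw [eq_neg_iff_add_eq_zero, add_comm, ← add_assoc]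
          exact habc
        rw [this]
        exact neg_mem haW
      have h3 : x + x ∉ W := fun h => hxW (mem_of_two hodd h)
      have h4 : -x + -x ∉ W := fun h => hnxW (mem_of_two hodd h)
      rcases hb with rfl | rfl <;> rcases hc with rfl | rfl
      · exact h3 h2
      · rw [add_neg_cancel_right] at habc
        exact h0 a ha habc
      · rw [neg_add_cancel_right] at habc
        exact h0 a ha habc
      · exact h4 h2
    rcases hsg s hs with ⟨hs1, hs2⟩ | hs1 <;> rcases hsg t ht with ⟨ht1, ht2⟩ | ht1 <;>
      rcases hsg u hu with ⟨hu1, hu2⟩ | hu1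
    · exact ih s t u hs1 ht1 hu1 hsum
    · exact (one s t u hs2 ht2 hu1 hsum).elim
    · exact (one s u t hs2 hu2 ht1 (by rw [← hsum]; abel)).elim
    · exact (two s t u hs1 hs2 ht1 hu1 hsum).elim
    · exact (one t u s ht2 hu2 hs1 (by rw [← hsum]; abel)).elim
    · exact (two t s u ht1 ht2 hs1 hu1 (by rw [← hsum]; abel)).elim
    · exact (two u s t hu1 hu2 hs1 ht1 (by rw [← hsum]; abel)).elim
    · rcases hs1 with rfl | rfl <;> rcases ht1 with rfl | rfl <;> rcases hu1 with rfl | rfl
      · exact ⟨rfl, rfl⟩
      · rw [add_neg_cancel_right] at hsum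
        exact absurd hsum hx0
      · rw [add_neg_cancel, zero_add] at hsum
        exact absurd hsum hx0
      · rw [add_neg_cancel, zero_add, neg_eq_zero] at hsum
        exact absurd hsum hx0
      · rw [neg_add_cancel, zero_add] at hsum
        exact absurd hsum hx0
      · rw [neg_add_cancel, zero_add, neg_eq_zero] at hsum
        exact absurd hsum hx0
      · rw [neg_add_cancel_right, neg_eq_zero] at hsum
        exact absurd hsum hx0
      · exact ⟨rfl, rfl⟩

end Rel

end Pool.Agent.Helper18.TD
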